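import Pool.Agent.Lib_helper45.Bil.Final

/-!
The full complexity of the billiard in an arbitrary polygon grows at least cubically on average.
-/

namespace Pool.Agent.Results.MP_aaed04_an.CubicOnAverage

open Pool.Agent.Billiard

/-- For every polygon the averages of `F n / n ^ 3` are bounded away from zero. -/
theorem result (P : Polygon) : ∃ c : ℝ, 0 < c ∧ ∀ N : ℕ, 1 ≤ N →
    c * N ≤ ∑ n ∈ Finset.Icc 1 N, (P.complexity n : ℝ) / (n : ℝ) ^ 3 :=
  Pool.Agent.Lib_helper45.Bil.cubic_average P

end Pool.Agent.Results.MP_aaed04_an.CubicOnAverage
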