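import Pool.Agent.Lib_helper45.Bil.Final

/-!
The full complexity of the billiard in an arbitrary polygon satisfies the bound
`F n ≥ c n ^ (2 + s)` at a proportion at least `1 / (1 + s)` of the scales.
-/

namespace Pool.Agent.Results.MP_aaed04_an.CubicScales

open Pool.Agent.Billiard

/-- For every polygon and every `s` in `(0, 1]`, the set of all `n` with
`F n ≥ c n ^ (2 + s)` has, for `c` small, lower logarithmic density arbitrarily close to
`1 / (1 + s)` or more. For `s = 1` this is the cubic bound at one half of the scales. -/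
theorem result (P : Polygon) (s κ : ℝ) (hs : 0 < s) (hs1 : s ≤ 1) (hκ : κ < 1 / (1 + s)) :
    ∃ c : ℝ, 0 < c ∧ ∃ C : ℝ, ∀ N : ℕ, 1 ≤ N → κ * Real.log N - C ≤
      ∑ n ∈ (Finset.Icc 1 N).filter (fun n : ℕ => c * (n : ℝ) ^ (2 + s) ≤ P.complexity n),
        1 / (n : ℝ) :=
  Pool.Agent.Lib_helper45.Bil.many_scales P s κ hs hs1 hκ

end Pool.Agent.Results.MP_aaed04_an.CubicScales
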