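import Pool.Agent.FAN4.Total
import Pool.Agent.FAN4.Root

/-!
The full complexity of the billiard in an arbitrary polygon grows at least like `n ^ β` for every
`β < s`, where `s = 2.7869...` is the root of `2 ^ (1 / s) + 2 / s = 2`.
-/

namespace Pool.Agent.Results.MP_aaed04_an.LowerBound

open Pool.Agent.Billiard

/-- There is a real number `s` with `2 ^ (1 / s) + 2 / s = 2` and `2.7869 < s < 2.787` such that for every
polygon `P` and every `β < s` there is `c > 0` with `c n ^ β ≤ F n` for all `n ≥ 1`. -/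
theorem result : ∃ s : ℝ, (2 : ℝ) ^ (1 / s) + 2 / s = 2 ∧ 2.7869 < s ∧ s < 2.787 ∧
    ∀ (P : Polygon) (β : ℝ), β < s → ∃ c : ℝ, 0 < c ∧ ∀ n : ℕ, 1 ≤ n →
      c * (n : ℝ) ^ β ≤ P.complexity n := by
  obtain ⟨s, hs, h1, h2⟩ := Pool.Agent.FAN.exists_root
  refine ⟨s, hs, h1, h2, fun P β hβ => ?_⟩
  have hs0 : 0 < s := by linarith
  refine Pool.Agent.FAN.fan4_total (1 / s) ?_ P β ?_
  · have h3 : 2 * (1 / s) = 2 / s := by ring
    rw [h3]
    exact hs
  · rwa [one_div_one_div]

end Pool.Agent.Results.MP_aaed04_an.LowerBound
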