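import Pool.Agent.BGD.STRAll

/-!
A polynomial upper bound for the complexity of the billiard in every polygon.
-/

namespace Pool.Agent.Results.MP_aaed04_an.PolynomialBound

open Pool.Agent.Billiard Pool.Agent.BGD

/-- There is an absolute `d` such that `F n ≤ C n ^ (2 D + d)` for every polygon `P` and all `n ≥ 1`,
where `D ≤ k` is the dimension of the `ℚ`-vector space spanned by `π` and the exterior angles of `P`,
and `C` depends on `P`. -/
theorem result : ∃ d : ℕ, ∀ P : Polygon, angleDim P ≤ P.k ∧ ∃ C : ℝ, ∀ n : ℕ, 1 ≤ n →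
    (P.complexity n : ℝ) ≤ C * (n : ℝ) ^ (2 * angleDim P + d) :=
  polynomial_bound

end Pool.Agent.Results.MP_aaed04_an.PolynomialBound
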